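import Pool.Agent.H59.RD5

set_option autoImplicit false

namespace Pool.Agent.Results.MP_32694d_nt.Limit
open Polynomial Filter Topology

/-- `f` and `g` share no complex root -/
def Cop (f g : ℤ[X]) : Prop := ∀ z : ℂ, ¬ (aeval z f = 0 ∧ aeval z g = 0)

/-- least positive `N` clearing the denominators of the Bezout pair `p, q` -/
noncomputable def B (f g : ℤ[X]) : ℕ :=
  sInf {N : ℕ | 0 < N ∧ ∃ p q : ℚ[X],
    p * f.map (Int.castRingHom ℚ) + q * g.map (Int.castRingHom ℚ) = 1 ∧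
    p.degree < g.degree ∧ q.degree < f.degree ∧
    (∀ i, ∃ z : ℤ, (N : ℚ) * p.coeff i = z) ∧ (∀ i, ∃ z : ℤ, (N : ℚ) * q.coeff i = z)}

/-- absolute value of the resultant (determinant of the Sylvester matrix) -/
noncomputable def R (f g : ℤ[X]) : ℕ := (resultant f g f.natDegree g.natDegree).natAbs

/-- exact degree `k`, positive leading coefficient, coefficients in `[-H, H]` -/
def P (k H : ℕ) : Set ℤ[X] :=
  {f | f.natDegree = k ∧ 0 < f.leadingCoeff ∧ ∀ i, |f.coeff i| ≤ H}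

def S (m n H : ℕ) : Set (ℤ[X] × ℤ[X]) := {x | x.1 ∈ P m H ∧ x.2 ∈ P n H ∧ Cop x.1 x.2}

def E (m n H : ℕ) : Set (ℤ[X] × ℤ[X]) := {x | x ∈ S m n H ∧ B x.1 x.2 = R x.1 x.2}

noncomputable def rho (m n H : ℕ) : ℝ := ((E m n H).ncard : ℝ) / ((S m n H).ncard : ℝ)

open Pool.Agent.H59.RD in
theorem result (m n : ℕ) (hm : 2 ≤ m) (hn : 2 ≤ n) :
    ∃ L : ℝ, L ≤ 4 / 9 ∧ Tendsto (rho m n) atTop (𝓝 L) := by
  obtain ⟨L, hL, h⟩ := main hm hn
  refine ⟨L, hL, h.congr' ?_⟩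
  filter_upwards [eventually_ge_atTop 1] with H hH
  have hS : ∀ x, (fP m x, gP m n x) ∈ S m n H ↔ x ∈ box m n H ∧ Psi m n x ≠ 0 := by
    intro x
    rw [mem_box (by omega)]
    simp only [S, P, Set.mem_setOf_eq, Cop]
    constructor
    · rintro ⟨a, b, c⟩; exact ⟨⟨a, b⟩, (cop_iff (by omega) a.1 b.1).1 c⟩
    · rintro ⟨⟨a, b⟩, c⟩; exact ⟨a, b, (cop_iff (by omega) a.1 b.1).2 c⟩
  have hE : ∀ x, (fP m x, gP m n x) ∈ E m n H ↔
      x ∈ box m n H ∧ (Psi m n x ≠ 0 ∧ ∀ p : ℕ, p.Prime → GP m n p x) := by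
    intro x
    simp only [E, Set.mem_setOf_eq]
    rw [hS, and_assoc]
    refine and_congr_right fun hx => and_congr_right fun hr => ?_
    obtain ⟨a, b⟩ := (mem_box (by omega) x).1 hx
    have e : B (fP m x) (gP m n x) = sInf {N : ℕ | 0 < N ∧ InN m n (fP m x) (gP m n x) N} := by
      unfold B
      refine congrArg sInf (Set.ext fun N => and_congr_right fun hN => ?_)
      exact inN_iff (by omega) (by omega) a.1 b.1 hN
    rw [e, R, a.1, b.1, sInf_eq_iff (by omega) a.1.le b.1.le hr]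
    have e2 : ∀ p : ℕ, GP m n p x ↔ Good m n ((fP m x).map (Int.castRingHom (ZMod p)))
        ((gP m n x).map (Int.castRingHom (ZMod p))) := by
      intro p; rw [← fP_map, ← gP_map]; rfl
    simp only [e2]
    exact ⟨fun H p _ => good_of_int H p, int_of_good (by omega) a.1.le b.1.le hr⟩
  have hb := box_pos (m := m) (n := n) hH
  rw [rho, ncard_eq _ _ (fun y hy => ⟨hy.1.1.1, hy.1.2.1.1⟩) hE,
    ncard_eq _ _ (fun y hy => ⟨hy.1.1, hy.2.1.1⟩) hS]
  unfold dens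
  rw [div_div_div_cancel_right₀ hb.ne']

end Pool.Agent.Results.MP_32694d_nt.Limit
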